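import Mathlib
import Pool.Prelude.Def_F_b1b78ff3
import Pool.Agent.H391R2.X4
import Pool.Agent.V8H29.MK1

/-!
# Malle's conjecture over `ℚ` for `C₂ ≀ H`, `H` between the commutator-type subgroup and `A ≀ S_n`

`A` is an arbitrary finite group, `n` is large (depending on `A` only), and `H` is any subgroup of the
wreath product `A ≀ S_n` which contains all `(f, σ)` with `∏ [f i] = 1` in the abelianization of `A`:
these are the groups `{(f, σ) : ∏ [f i] ∈ B}` for the subgroups `B` of `A^ab`. For cyclic `A` they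
are the imprimitive complex reflection groups `G(m, p, n)`, for example the Weyl groups of type
`D_n`. The group `H` acts on itself by multiplication, and `C₂ ≀ H` acts on `H × {0, 1}`. The
conclusion of Malle's conjecture holds for it over `ℚ`, with `N(ℚ, G; B) ~ c B`.
-/

set_option autoImplicit false

open Filter

namespace Pool.Agent.Results.MP_a3214d_nt.IntermediateWreath

open Nfff32c05 (IsRealizable)
open Pool.Agent.H391R2 (Wr)

/-- `G ≤ S_d` is, up to a bijection `f` of `{1, ..., d}` with `H × {0, 1}`, the wreath product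
`C₂ ≀ H`: it consists of all permutations `π` for which there is `h ∈ H` such that `π` maps the block
`{x} × {0, 1}` to the block `{h x} × {0, 1}`, for all `x ∈ H`. -/
def IsC2Wreath (H : Type) [Group H] {d : ℕ} (G : Subgroup (Equiv.Perm (Fin d))) : Prop :=
  ∃ f : Fin d ≃ H × Bool, ∀ π : Equiv.Perm (Fin d), π ∈ G ↔ ∃ h : H, ∀ i, (f (π i)).1 = h * (f i).1

/-- The fields `L` between `K` and its algebraic closure, of degree `d` over `K`, whose Galois group,
acting on the embeddings, is `G` (up to numbering), and whose relative discriminant has norm at most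
`B` (that is, `|d_L| ≤ B |d_K| ^ d`). -/
def Ext (K : Type) [Field K] [NumberField K] (d : ℕ) (G : Subgroup (Equiv.Perm (Fin d)))
    (B : ℝ) : Set (IntermediateField K (AlgebraicClosure K)) :=
  {L | Module.finrank K L = d ∧
    (∃ e : (L →ₐ[K] AlgebraicClosure K) ≃ Fin d, ∀ π : Equiv.Perm (Fin d),
      π ∈ G ↔ ∃ σ : AlgebraicClosure K ≃ₐ[K] AlgebraicClosure K,
        ∀ φ : L →ₐ[K] AlgebraicClosure K, e (σ.toAlgHom.comp φ) = π (e φ)) ∧
    ∃ h : NumberField L,
      ((|@NumberField.discr L _ h| : ℤ) : ℝ) ≤ B * ((|NumberField.discr K| : ℤ) : ℝ) ^ d}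

/-- `N(K, G; B)`: the number of these fields up to `K`-isomorphism. -/
noncomputable def N (K : Type) [Field K] [NumberField K] (d : ℕ)
    (G : Subgroup (Equiv.Perm (Fin d))) (B : ℝ) : ℕ :=
  Nat.card (Quot fun L L' : Ext K d G B => Nonempty (L.1 ≃ₐ[K] L'.1))

/-- The conclusion of Malle's conjecture for `G`, over all number fields: there is `a > 0` such that
for every number field `K` there are `c > 0` and `b ≥ 1` with
`N(K, G; B) ~ c B ^ a (log B) ^ (b - 1)`. -/
def Malle (d : ℕ) (G : Subgroup (Equiv.Perm (Fin d))) : Prop :=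
  ∃ a : ℝ, 0 < a ∧ ∀ (K : Type) [Field K] [NumberField K], ∃ (c : ℝ) (b : ℕ), 0 < c ∧ 1 ≤ b ∧
    Tendsto (fun B : ℝ => (N K d G B : ℝ) / (B ^ a * Real.log B ^ (b - 1))) atTop (nhds c)

/-- The group `C₂ ≀ H` exists, and is transitive. -/
theorem exists_group (H : Type) [Group H] [Finite H] : ∃ (d : ℕ)
    (G : Subgroup (Equiv.Perm (Fin d))), d = 2 * Nat.card H ∧ IsC2Wreath H G ∧
      ∀ i j : Fin d, ∃ g ∈ G, g i = j := by
  have hcard : Nat.card (H × Bool) = 2 * Nat.card H := by
    rw [Nat.card_prod, mul_comm]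
    simp
  let f : Fin (2 * Nat.card H) ≃ H × Bool := (Finite.equivFinOfCardEq hcard).symm
  let G : Subgroup (Equiv.Perm (Fin (2 * Nat.card H))) :=
    { carrier := {π | ∃ h : H, ∀ i, (f (π i)).1 = h * (f i).1}
      one_mem' := ⟨1, fun i => by simp⟩
      mul_mem' := by
        rintro π ρ ⟨h, hh⟩ ⟨h', hh'⟩
        refine ⟨h * h', fun i => ?_⟩
        rw [Equiv.Perm.mul_apply, hh, hh', mul_assoc]
      inv_mem' := by
        rintro π ⟨h, hh⟩
        refine ⟨h⁻¹, fun i => ?_⟩
        have h1 := hh (π⁻¹ i)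
        rw [show π (π⁻¹ i) = i from π.apply_symm_apply i] at h1
        rw [h1, inv_mul_cancel_left] }
  refine ⟨2 * Nat.card H, G, rfl, ⟨f, fun π => Iff.rfl⟩, fun i j => ?_⟩
  let t : Equiv.Perm (H × Bool) :=
    (Equiv.mulLeft ((f j).1 * (f i).1⁻¹)).prodCongr (Equiv.swap (f i).2 (f j).2)
  refine ⟨f.trans (t.trans f.symm), ⟨(f j).1 * (f i).1⁻¹, fun x => ?_⟩, ?_⟩
  · simp [t]
  · change f.symm (t (f i)) = j
    rw [Equiv.symm_apply_eq]
    exact Prod.ext (by simp [t]) (by simp [t])

theorem of_data (K : Type) [Field K] [NumberField K] (H : Type) [Group H] [Finite H]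
    (h2 : 2 ≤ Nat.card H) (U : Subgroup H) (hU : U.normalCore = ⊥)
    (hc : 8 * U.index * (U.index + 1) ≤ Nat.card H)
    (hne : (Pool.Agent.TH444.ML.Gal K (AlgebraicClosure K) H).Nonempty) (d : ℕ)
    (G : Subgroup (Equiv.Perm (Fin d))) (hG : IsC2Wreath H G) : ∃ c : ℝ, 0 < c ∧
      Tendsto (fun B : ℝ => (N K d G B : ℝ) / B) atTop (nhds c) :=
  Pool.Agent.TH444.ML.asymp_iso Pool.Agent.TH444.ML.rest K H h2 U hU hc hne G hG

theorem of_real (K : Type) [Field K] [NumberField K] (H : Type) [Group H] [Finite H]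
    (h2 : 2 ≤ Nat.card H) (U : Subgroup H) (hU : U.normalCore = ⊥)
    (hc : 8 * U.index * (U.index + 1) ≤ Nat.card H)
    (hreal : ∃ (L : Type) (_ : Field L) (_ : Algebra K L), IsGalois K L ∧
      Nonempty (H ≃* (L ≃ₐ[K] L))) (d : ℕ)
    (G : Subgroup (Equiv.Perm (Fin d))) (hG : IsC2Wreath H G) : ∃ c : ℝ, 0 < c ∧
      Tendsto (fun B : ℝ => (N K d G B : ℝ) / B) atTop (nhds c) :=
  of_data K H h2 U hU hc (Pool.Agent.V8H29.MK.gal_of_real K (AlgebraicClosure K) H hreal) d G hG

/-- the subgroups of small index with trivial core -/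
theorem core_of (A : Type) [Group A] [Finite A] (n : ℕ) (hn : 2 ≤ n) (H : Subgroup (Wr A n))
    (hH : ∀ x : Wr A n, ∏ i, Abelianization.of (x.left i) = 1 → x ∈ H) :
    ∃ U : Subgroup H, U.normalCore = ⊥ ∧ U.index = Nat.card A * n := by
  classical
  let _ := Pool.Agent.TH444.ML.wrAct A n
  let i₀ : Fin n := ⟨0, by omega⟩
  have hdef : ∀ (w : Wr A n) (x : A × Fin n),
      w • x = (w.left (w.right x.2) * x.1, w.right x.2) := fun _ _ => rfl
  have hsub : ∀ (w : H) (x : A × Fin n), w • x = (w : Wr A n) • x := fun _ _ => rfl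
  have htrans : ∀ x : A × Fin n, ∃ w : H, w • ((1 : A), i₀) = x := by
    rintro ⟨a, i⟩
    obtain ⟨j, hj⟩ : ∃ j : Fin n, j ≠ i := by
      by_cases hi : i = i₀
      · refine ⟨⟨1, by omega⟩, ?_⟩
        rw [hi]
        intro h
        have := congrArg Fin.val h
        simp [i₀] at this
      · exact ⟨i₀, fun h => hi h.symm⟩
    refine ⟨⟨⟨Pi.mulSingle i a * Pi.mulSingle j a⁻¹, Equiv.swap i₀ i⟩, hH _ ?_⟩, ?_⟩
    · simp only [Pi.mul_apply, map_mul]
      rw [Finset.prod_mul_distrib]
      have h1 : ∀ (k : Fin n) (b : A), ∏ x, Abelianization.of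
          ((Pi.mulSingle k b : Fin n → A) x) = Abelianization.of b := by
        intro k b
        rw [Finset.prod_eq_single k]
        · rw [Pi.mulSingle_eq_same]
        · intro l _ hl
          rw [Pi.mulSingle_eq_of_ne hl, map_one]
        · intro h
          exact absurd (Finset.mem_univ _) h
      rw [h1, h1, ← map_mul, mul_inv_cancel, map_one]
    · rw [hsub, hdef]
      simp [Pi.mulSingle_eq_of_ne hj.symm]
  refine ⟨MulAction.stabilizer H ((1 : A), i₀), ?_, ?_⟩
  · rw [eq_bot_iff]
    intro x hx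
    have hfix : ∀ y : A × Fin n, x • y = y := by
      intro y
      obtain ⟨w, rfl⟩ := htrans y
      have h1 : w⁻¹ * x * w ∈ MulAction.stabilizer H ((1 : A), i₀) := by
        have := hx w⁻¹
        simpa using this
      rw [MulAction.mem_stabilizer_iff, mul_smul, mul_smul, inv_smul_eq_iff] at h1
      exact h1
    rw [Subgroup.mem_bot]
    have hr : (x : Wr A n).right = 1 := by
      ext i
      have := congrArg (fun z : A × Fin n => (z.2 : ℕ)) (hfix (1, i))
      simpa [hsub, hdef] using this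
    apply Subtype.ext
    apply SemidirectProduct.ext
    · funext i
      have := congrArg Prod.fst (hfix (1, i))
      rw [hsub, hdef] at this
      simp only [hr, Equiv.Perm.one_apply, mul_one] at this
      exact this
    · exact hr
  · rw [MulAction.index_stabilizer]
    have : MulAction.orbit H ((1 : A), i₀) = Set.univ := by
      rw [Set.eq_univ_iff_forall]
      intro x
      obtain ⟨w, hw⟩ := htrans x
      exact ⟨w, hw⟩
    rw [this, Set.ncard_univ, Nat.card_prod, Nat.card_fin]

theorem card_of (A : Type) [Group A] [Finite A] (n : ℕ) (H : Subgroup (Wr A n))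
    (hH : ∀ x : Wr A n, ∏ i, Abelianization.of (x.left i) = 1 → x ∈ H) :
    Nat.card A ^ n * n.factorial ≤ Nat.card A * Nat.card H := by
  have h1 : (Pool.Agent.H391R2.wcls A n).ker ≤ H := by
    intro x hx
    apply hH
    rw [MonoidHom.mem_ker, Pool.Agent.H391R2.wcls_apply] at hx
    exact hx
  have h2 : H.index ≤ (Pool.Agent.H391R2.wcls A n).ker.index :=
    Nat.le_of_dvd (Nat.pos_of_ne_zero Subgroup.index_ne_zero_of_finite)
      (Subgroup.index_dvd_of_le h1)
  have h3 : (Pool.Agent.H391R2.wcls A n).ker.index ≤ Nat.card A := by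
    rw [Subgroup.index_ker]
    refine (Nat.card_le_card_of_injective (fun x : (Pool.Agent.H391R2.wcls A n).range =>
      (x : Abelianization A)) Subtype.val_injective).trans ?_
    exact Nat.card_le_card_of_surjective (Abelianization.of : A →* Abelianization A)
      QuotientGroup.mk_surjective
  have h4 := H.card_mul_index
  rw [Pool.Agent.TH444.ML.wr_card] at h4
  rw [← h4, mul_comm]
  exact Nat.mul_le_mul_right _ (h2.trans h3)

/-- Over `ℚ` the asymptotic formula `N(ℚ, G; B) ~ c B` holds for all subgroups of symmetric groups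
of the form `G = C₂ ≀ H`, `H` in its regular action. -/
def MalleOverQ (H : Type) [Group H] : Prop :=
  ∀ (d : ℕ) (G : Subgroup (Equiv.Perm (Fin d))), IsC2Wreath H G → ∃ c : ℝ, 0 < c ∧
    Tendsto (fun B : ℝ => (N ℚ d G B : ℝ) / B) atTop (nhds c)

/-- Let `A` be a finite group. There is `n₀` such that for all `n ≥ n₀` and all subgroups `H` of
`A ≀ S_n` which contain all `(f, σ)` with `∏ [f i] = 1` in the abelianization of `A`, the group
`C₂ ≀ H` exists as a transitive group of degree `2 |H|`, and for every such `G` there is `c > 0`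
with `N(ℚ, G; B) ~ c B`. -/
theorem result (A : Type) [Group A] [Finite A] : ∃ n₀ : ℕ, ∀ n ≥ n₀, ∀ H : Subgroup (Wr A n),
    (∀ x : Wr A n, ∏ i, Abelianization.of (x.left i) = 1 → x ∈ H) →
    (∃ (d : ℕ) (G : Subgroup (Equiv.Perm (Fin d))), d = 2 * Nat.card H ∧ IsC2Wreath H G ∧
      ∀ i j : Fin d, ∃ g ∈ G, g i = j) ∧ MalleOverQ H := by
  obtain ⟨n₀, hn₀⟩ := Pool.Agent.H391R2.intermediate_realize A
  refine ⟨max n₀ 12, fun n hn H hH => ⟨exists_group H, ?_⟩⟩
  have hn1 : n₀ ≤ n := (le_max_left _ _).trans hn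
  have hn2 : 12 ≤ n := (le_max_right _ _).trans hn
  obtain ⟨L, i1, i2, h1, ⟨h2⟩⟩ := hn₀ n hn1 H (by
    intro x hx
    apply hH
    rw [MonoidHom.mem_ker, Pool.Agent.H391R2.wcls_apply] at hx
    exact hx)
  obtain ⟨U, hU, hUi⟩ := core_of A n (by omega) H hH
  have hA : 1 ≤ Nat.card A := Nat.card_pos
  have hc := card_of A n H hH
  have hf := Pool.Agent.V8H29.MK.fact_ge hn2
  have h3 : n.factorial = n * (n - 1).factorial := (Nat.mul_factorial_pred (by omega)).symm
  have hroom : 8 * U.index * (U.index + 1) ≤ Nat.card H := by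
    rw [hUi]
    have h5 : Nat.card A ^ 3 ≤ Nat.card A ^ n := Nat.pow_le_pow_right hA (by omega)
    have h6 : Nat.card A * (8 * (Nat.card A * n) * (Nat.card A * n + 1)) ≤
        Nat.card A * Nat.card H := by
      refine le_trans ?_ hc
      rw [h3]
      have h7 : 1 ≤ Nat.card A * n := Nat.one_le_iff_ne_zero.2 (by positivity)
      calc Nat.card A * (8 * (Nat.card A * n) * (Nat.card A * n + 1)) ≤
          Nat.card A * (8 * (Nat.card A * n) * (Nat.card A * n + Nat.card A * n)) := by
            gcongr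
        _ = Nat.card A ^ 3 * (16 * n ^ 2) := by ring
        _ ≤ Nat.card A ^ n * (n * (n - 1).factorial) := by
            refine Nat.mul_le_mul h5 (hf.trans ?_)
            exact Nat.le_mul_of_pos_left _ (by omega)
    exact Nat.le_of_mul_le_mul_left h6 hA
  intro d G hG
  refine of_real ℚ H ?_ U hU hroom ⟨L, i1, i2, h1, ⟨h2⟩⟩ d G hG
  have h8 : 1 ≤ U.index := by
    rw [hUi]
    exact Nat.one_le_iff_ne_zero.2 (by positivity)
  refine le_trans ?_ hroom
  nlinarith

end Pool.Agent.Results.MP_a3214d_nt.IntermediateWreath
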