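import Mathlib
import Pool.Agent.V8H29.LC9

/-!
# Number fields with Galois group `C₂ ≀ H` and local conditions: a positive proportion

Let `H` be a finite group acting on itself by multiplication, and `G = C₂ ≀ H` acting on `H × {0, 1}`. An extension `L` of
a number field `K` with group `G` is a quadratic extension of a Galois extension `M` of `K` with group `H`.

(1) For every number field `K`, every finite group `H`, every Galois extension `M` of `K` with group `H` and every finite set
`S` of primes, at least `c B`, `c > 0`, isomorphism classes of `G`-extensions `L` of `K` with discriminant of norm at most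
`B` contain `M` and are split over `M` at all places above `S` and at all real places of `M`.

(2) For every finite group `A`, every `r` and all `n ≥ n₀(A) + C(A) r`, for all finite sets `S` of primes and all continuous
homomorphisms `ψ_p` from the absolute Galois group of `ℚ_p` to `A ≀ S_r`, `p ∈ S`: a positive proportion of the number
fields with Galois group `C₂ ≀ (A ≀ S_n)`, ordered by the absolute value of the discriminant, are totally real and have at
each `p ∈ S` all their completions equal to the fixed field of the kernel of `ψ_p`. The number of all these fields is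
asymptotic to `c B`, `c > 0`.

(3) For instance, `A ≀ S_n` being as in (2) with `n ≥ n₁`, the completions at the finitely many primes `p ∈ S` can be
arbitrary finite Galois extensions `E_p` of `ℚ_p`; and for `E_p = ℚ_p`, that is for totally split primes, `n₁` does not
depend on `S`.

The proof of (1): the class of the quadratic extension `M(√α)` is, up to a class of a finite set, determined by the ideal
class of `𝔠`, `(α) = 𝔡 𝔠²`, `𝔡` squarefree, by the residue class of `α` modulo `m² 𝔠²` and by the signs of `α`; and for two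
elements `α`, `α'` of the same class `α α'` is, up to a square, totally positive and congruent to `1` modulo `m`. So the
multiplication by one of finitely many elements maps a positive proportion of all quadratic extensions of `M` to extensions
with the local conditions, and changes the discriminants by a bounded factor only.
-/

set_option autoImplicit false

open Filter

namespace Pool.Agent.Results.MP_a3214d_nt.LocalConditions

open Pool.Agent.H391R2 (Wr)

/-- `G ≤ S_d` is, up to a bijection `f` of `{1, ..., d}` with `H × {0, 1}`, the wreath product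
`C₂ ≀ H`: it consists of all permutations `π` for which there is `h ∈ H` such that `π` maps the block
`{x} × {0, 1}` to the block `{h x} × {0, 1}`, for all `x ∈ H`. -/
def IsC2Wreath (H : Type) [Group H] {d : ℕ} (G : Subgroup (Equiv.Perm (Fin d))) : Prop :=
  ∃ f : Fin d ≃ H × Bool, ∀ π : Equiv.Perm (Fin d), π ∈ G ↔ ∃ h : H, ∀ i, (f (π i)).1 = h * (f i).1

/-- The fields `L` between `K` and its algebraic closure, of degree `d` over `K`, whose Galois group,
acting on the embeddings, is `G` (up to numbering), and whose relative discriminant has norm at most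
`B` (that is, `|d_L| ≤ B |d_K| ^ d`). -/
def Ext (K : Type) [Field K] [NumberField K] (d : ℕ) (G : Subgroup (Equiv.Perm (Fin d)))
    (B : ℝ) : Set (IntermediateField K (AlgebraicClosure K)) :=
  {L | Module.finrank K L = d ∧
    (∃ e : (L →ₐ[K] AlgebraicClosure K) ≃ Fin d, ∀ π : Equiv.Perm (Fin d),
      π ∈ G ↔ ∃ σ : AlgebraicClosure K ≃ₐ[K] AlgebraicClosure K,
        ∀ φ : L →ₐ[K] AlgebraicClosure K, e (σ.toAlgHom.comp φ) = π (e φ)) ∧
    ∃ h : NumberField L,
      ((|@NumberField.discr L _ h| : ℤ) : ℝ) ≤ B * ((|NumberField.discr K| : ℤ) : ℝ) ^ d}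

/-- `N(K, G; B)`: the number of these fields up to `K`-isomorphism. -/
noncomputable def N (K : Type) [Field K] [NumberField K] (d : ℕ)
    (G : Subgroup (Equiv.Perm (Fin d))) (B : ℝ) : ℕ :=
  Nat.card (Quot fun L L' : Ext K d G B => Nonempty (L.1 ≃ₐ[K] L'.1))

/-- The number of these fields with the property `P`, up to `K`-isomorphism. -/
noncomputable def NP (K : Type) [Field K] [NumberField K] (d : ℕ)
    (G : Subgroup (Equiv.Perm (Fin d))) (B : ℝ)
    (P : IntermediateField K (AlgebraicClosure K) → Prop) : ℕ :=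
  Nat.card (Quot fun L L' : {L : IntermediateField K (AlgebraicClosure K) //
    L ∈ Ext K d G B ∧ P L} => Nonempty (L.1 ≃ₐ[K] L'.1))

/-- The Galois extensions of `K`, inside its algebraic closure, with group `H`. -/
def GaloisExt (K : Type) [Field K] (H : Type) [Group H] :
    Set (IntermediateField K (AlgebraicClosure K)) :=
  {M | FiniteDimensional K M ∧ IsGalois K M ∧ Nonempty ((M ≃ₐ[K] M) ≃* H)}

/-- The completion of `F` for the place given by the embedding `σ` of `F` into the algebraic closure of `ℚ_p`, as a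
subfield of this algebraic closure: it is generated by `ℚ_p` and the image of `F`. -/
noncomputable def completion {F : Type} [Field F] (p : ℕ) [Fact p.Prime]
    (σ : F →+* AlgebraicClosure ℚ_[p]) :
    IntermediateField ℚ_[p] (AlgebraicClosure ℚ_[p]) :=
  IntermediateField.adjoin ℚ_[p] (Set.range σ)

/-- `L` contains `M`, and `L/M` is split at the real places of `M` (each embedding of `L` in `ℂ` with `M` mapped to `ℝ`
maps `L` to `ℝ`) and at the places above the primes in `S` (for each embedding of `L` in the algebraic closure of `ℚ_p`,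
`L` and `M` have the same completion). -/
def SplitOver {K : Type} [Field K] (M L : IntermediateField K (AlgebraicClosure K)) (S : Finset ℕ)
    [∀ p : S, Fact (p : ℕ).Prime] : Prop :=
  ∃ h : M ≤ L, (∀ φ : L →+* ℂ, (∀ x : M, (φ (IntermediateField.inclusion h x)).im = 0) →
      ∀ x : L, (φ x).im = 0) ∧
    ∀ (p : S) (σ : L →+* AlgebraicClosure ℚ_[(p : ℕ)]),
      completion (p : ℕ) σ =
        completion (p : ℕ) (σ.comp (IntermediateField.inclusion h).toRingHom)

/-- The absolute Galois group of `ℚ_p`. -/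
abbrev GalQp (p : ℕ) [Fact p.Prime] : Type :=
  AlgebraicClosure ℚ_[p] ≃ₐ[ℚ_[p]] AlgebraicClosure ℚ_[p]

/-- `L` is totally real, and for all `p ∈ S` all its completions at `p` are equal to the fixed field of the kernel of
`ψ p`. -/
def HasLocal (L : Type) [Field L] (S : Finset ℕ) [∀ p : S, Fact (p : ℕ).Prime] (Q : Type) [Group Q]
    (ψ : ∀ p : S, GalQp p →* Q) : Prop :=
  NumberField.IsTotallyReal L ∧ ∀ (p : S) (σ : L →+* AlgebraicClosure ℚ_[(p : ℕ)]),
    completion (p : ℕ) σ = IntermediateField.fixedField (ψ p).ker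

theorem splitOver_of (K : Type) [Field K] [NumberField K]
    (M L : IntermediateField K (AlgebraicClosure K)) (S : Finset ℕ) [∀ p : S, Fact (p : ℕ).Prime]
    (hML : M ≤ L) (h : V8H29.LC.GoodOver M L (4 * ∏ p ∈ S, p)) : SplitOver M L S := by
  refine ⟨hML, fun φ hφ x => V8H29.LC.good_real hML h φ (fun y hy => hφ ⟨y, hy⟩) x,
    fun p σ => ?_⟩
  apply le_antisymm
  · unfold completion
    rw [IntermediateField.adjoin_le_iff]
    rintro _ ⟨x, rfl⟩
    refine V8H29.LC.good_padic hML h (p : ℕ) ?_ σ _ (fun y hy => ?_) x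
    · exact Nat.mul_dvd_mul_left 4 (Finset.dvd_prod_of_mem (fun p => p) p.2)
    · exact IntermediateField.subset_adjoin _ _ ⟨⟨y, hy⟩, rfl⟩
  · unfold completion
    rw [IntermediateField.adjoin_le_iff]
    rintro _ ⟨x, rfl⟩
    exact IntermediateField.subset_adjoin _ _ ⟨_, rfl⟩

theorem lower (K : Type) [Field K] [NumberField K] (H : Type) [Group H] [Finite H]
    (M : IntermediateField K (AlgebraicClosure K)) (hM : M ∈ GaloisExt K H) (S : Finset ℕ)
    [∀ p : S, Fact (p : ℕ).Prime] (d : ℕ) (G : Subgroup (Equiv.Perm (Fin d)))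
    (hG : IsC2Wreath H G) (P : IntermediateField K (AlgebraicClosure K) → Prop)
    (hP : ∀ L, SplitOver M L S → P L) :
    ∃ c : ℝ, 0 < c ∧ ∀ᶠ B : ℝ in atTop, c * B ≤ (NP K d G B P : ℝ) := by
  have hm : 2 ≤ 4 * ∏ p ∈ S, p := by
    have h1 : 0 < ∏ p ∈ S, p := Finset.prod_pos fun p hp =>
      (show Fact ((⟨p, hp⟩ : S) : ℕ).Prime from inferInstance).out.pos
    omega
  exact V8H29.LC.count_lower K H M hM (4 * ∏ p ∈ S, p) hm G hG P
    (fun L _ hML h => hP L (splitOver_of K M L S hML h))

theorem hasLocal_of (M L : IntermediateField ℚ (AlgebraicClosure ℚ)) (S : Finset ℕ)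
    [∀ p : S, Fact (p : ℕ).Prime] (Q : Type) [Group Q] (ψ : ∀ p : S, GalQp p →* Q)
    (hM : HasLocal M S Q ψ) (h : SplitOver M L S) : HasLocal L S Q ψ := by
  obtain ⟨hML, h1, h2⟩ := h
  refine ⟨⟨fun v => ?_⟩, fun p σ => ?_⟩
  · rw [NumberField.InfinitePlace.isReal_iff]
    have hr := h1 v.embedding (fun x => by
      have h3 : NumberField.IsTotallyReal M := hM.1
      have h4 := h3.complexEmbedding_isReal
        (v.embedding.comp (IntermediateField.inclusion hML).toRingHom)
      have h5 := RingHom.congr_fun h4 x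
      exact Complex.conj_eq_iff_im.1 h5)
    ext x
    exact Complex.conj_eq_iff_im.2 (hr x)
  · rw [h2 p σ]
    exact hM.2 p _

theorem part2 (A : Type) [Group A] [Finite A] : ∃ n₀ C : ℕ, ∀ (r n : ℕ), r ≤ n → n₀ + C * r ≤ n →
      ∀ (S : Finset ℕ) [∀ p : S, Fact (p : ℕ).Prime] (ψ : ∀ p : S, GalQp p →* Wr A r),
      (∀ p : S, IsOpen ((ψ p).ker : Set (GalQp p))) →
      ∀ (d : ℕ) (G : Subgroup (Equiv.Perm (Fin d))), IsC2Wreath (Wr A n) G →
        (∃ c : ℝ, 0 < c ∧ Tendsto (fun B : ℝ => (N ℚ d G B : ℝ) / B) atTop (nhds c)) ∧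
        ∀ P : IntermediateField ℚ (AlgebraicClosure ℚ) → Prop,
          (∀ L : IntermediateField ℚ (AlgebraicClosure ℚ), HasLocal L S (Wr A r) ψ → P L) →
          ∃ c : ℝ, 0 < c ∧ ∀ᶠ B : ℝ in atTop, c * B ≤ (NP ℚ d G B P : ℝ) := by
  obtain ⟨n₀, C, h⟩ := V8H29.LC.exists_local A
  refine ⟨n₀ + 10, C, fun r n hr hn S _ ψ hψ d G hG => ?_⟩
  obtain ⟨M, hM1, hM2, hM3⟩ := h r n hr (by omega) S ψ hψ
  have hf : Finite (Wr A n) := H391R2.T4.finite_wr A n
  have hn10 : 10 ≤ n := by omega
  have hA : 1 ≤ Nat.card A := Nat.card_pos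
  constructor
  · obtain ⟨U, h1, h2⟩ := Pool.Agent.TH444.ML.wr_core A n (by omega)
    refine Pool.Agent.TH444.ML.asymp_iso Pool.Agent.TH444.ML.rest ℚ (Wr A n) ?_ U h1 ?_ ⟨M, hM1⟩
      G hG
    · rw [Pool.Agent.TH444.ML.wr_card]
      have hfact : 2 ≤ n.factorial := by
        have := Nat.self_le_factorial n
        omega
      calc 2 ≤ 1 * n.factorial := by omega
        _ ≤ _ := Nat.mul_le_mul_right _ (Nat.one_le_pow _ _ hA)
    · rw [h2, Pool.Agent.TH444.ML.wr_card]
      exact Pool.Agent.TH444.ML.wr_bound hA hn10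
  · intro P hP
    exact lower ℚ (Wr A n) M hM1 S d G hG P
      (fun L hL => hP L (hasLocal_of M L S (Wr A r) ψ ⟨hM2, hM3⟩ hL))

/-- (1) For every Galois extension `M` of a number field `K` with finite group `H` and every finite set `S` of primes, at
least `c B`, `c > 0`, isomorphism classes of `C₂ ≀ H`-extensions `L` of `K` with discriminant of norm at most `B` contain
`M` and are split over `M` at the real places of `M` and at the places above `S`, for all large `B`. If `H` has a subgroup
`U` of index `i` with trivial core and `8 i (i + 1) ≤ |H|`, then the number of all isomorphism classes of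
`C₂ ≀ H`-extensions of `K` with discriminant of norm at most `B` is asymptotic to `c₁ B`, `c₁ > 0`; so they have a positive
lower density.

(2) For every finite group `A` there are `n₀`, `C` such that for all `r ≤ n` with `n₀ + C r ≤ n`, all finite sets `S` of
primes and all homomorphisms `ψ p : Gal(ℚ̄_p/ℚ_p) → A ≀ S_r` with open kernel, `p ∈ S`: the number of all number fields
with group `C₂ ≀ (A ≀ S_n)` and absolute value of the discriminant at most `B`, up to isomorphism, is asymptotic to `c₁ B`,
`c₁ > 0`, and at least `c B`, `c > 0`, of them are totally real and have for all `p ∈ S` all completions at `p` equal to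
the fixed field of the kernel of `ψ p`, for all large `B`.

(3) For every finite group `A`, every finite set `S` of primes and all finite Galois extensions `E p` of `ℚ_p`, `p ∈ S`,
there is `n₁` such that for all `n ≥ n₁` at least `c B`, `c > 0`, of these fields, for all large `B`, are totally real and
have for all `p ∈ S` all completions at `p` equal to `E p`. For every finite group `A` there is `n₂` such that for all
`n ≥ n₂` and every finite set `S` of primes this holds with `E p = ℚ_p` for all `p ∈ S`. -/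
theorem result :
    (∀ (K : Type) [Field K] [NumberField K] (H : Type) [Group H] [Finite H]
      (M : IntermediateField K (AlgebraicClosure K)), M ∈ GaloisExt K H →
      ∀ (S : Finset ℕ) [∀ p : S, Fact (p : ℕ).Prime] (d : ℕ) (G : Subgroup (Equiv.Perm (Fin d))),
      IsC2Wreath H G →
        (∃ c : ℝ, 0 < c ∧ ∀ᶠ B : ℝ in atTop, c * B ≤ (NP K d G B (fun L => SplitOver M L S) : ℝ)) ∧
        (2 ≤ Nat.card H → ∀ U : Subgroup H, U.normalCore = ⊥ →
          8 * U.index * (U.index + 1) ≤ Nat.card H →
          ∃ c : ℝ, 0 < c ∧ Tendsto (fun B : ℝ => (N K d G B : ℝ) / B) atTop (nhds c))) ∧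
    (∀ (A : Type) [Group A] [Finite A], ∃ n₀ C : ℕ, ∀ (r n : ℕ), r ≤ n → n₀ + C * r ≤ n →
      ∀ (S : Finset ℕ) [∀ p : S, Fact (p : ℕ).Prime] (ψ : ∀ p : S, GalQp p →* Wr A r),
      (∀ p : S, IsOpen ((ψ p).ker : Set (GalQp p))) →
      ∀ (d : ℕ) (G : Subgroup (Equiv.Perm (Fin d))), IsC2Wreath (Wr A n) G →
        (∃ c : ℝ, 0 < c ∧ Tendsto (fun B : ℝ => (N ℚ d G B : ℝ) / B) atTop (nhds c)) ∧
        ∃ c : ℝ, 0 < c ∧ ∀ᶠ B : ℝ in atTop,
          c * B ≤ (NP ℚ d G B (fun L => HasLocal L S (Wr A r) ψ) : ℝ)) ∧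
    (∀ (A : Type) [Group A] [Finite A] (S : Finset ℕ) [∀ p : S, Fact (p : ℕ).Prime]
      (E : ∀ p : S, IntermediateField ℚ_[(p : ℕ)] (AlgebraicClosure ℚ_[(p : ℕ)])),
      (∀ p : S, FiniteDimensional ℚ_[(p : ℕ)] (E p) ∧ Normal ℚ_[(p : ℕ)] (E p)) → ∃ n₁ : ℕ, ∀ n ≥ n₁,
      ∀ (d : ℕ) (G : Subgroup (Equiv.Perm (Fin d))), IsC2Wreath (Wr A n) G →
        ∃ c : ℝ, 0 < c ∧ ∀ᶠ B : ℝ in atTop, c * B ≤ (NP ℚ d G B (fun L =>
          NumberField.IsTotallyReal L ∧ ∀ (p : S) (σ : L →+* AlgebraicClosure ℚ_[(p : ℕ)]),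
            completion (p : ℕ) σ = E p) : ℝ)) ∧
    (∀ (A : Type) [Group A] [Finite A], ∃ n₂ : ℕ, ∀ n ≥ n₂,
      ∀ (S : Finset ℕ) [∀ p : S, Fact (p : ℕ).Prime]
      (d : ℕ) (G : Subgroup (Equiv.Perm (Fin d))), IsC2Wreath (Wr A n) G →
        ∃ c : ℝ, 0 < c ∧ ∀ᶠ B : ℝ in atTop, c * B ≤ (NP ℚ d G B (fun L =>
          NumberField.IsTotallyReal L ∧ ∀ (p : S) (σ : L →+* AlgebraicClosure ℚ_[(p : ℕ)]),
            completion (p : ℕ) σ = ⊥) : ℝ)) := by
  refine ⟨fun K _ _ H _ _ M hM S _ d G hG => ⟨lower K H M hM S d G hG _ fun L h => h,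
    fun h2 U hU hc => Pool.Agent.TH444.ML.asymp_iso Pool.Agent.TH444.ML.rest K H h2 U hU hc
      ⟨M, hM⟩ G hG⟩, ?_, ?_, ?_⟩
  · intro A _ _
    obtain ⟨n₀, C, h⟩ := part2 A
    refine ⟨n₀, C, fun r n hr hn S _ ψ hψ d G hG => ?_⟩
    obtain ⟨h1, h2⟩ := h r n hr hn S ψ hψ d G hG
    exact ⟨h1, h2 _ fun L hL => hL⟩
  · intro A _ _ S _ E hE
    obtain ⟨n₀, C, h⟩ := part2 A
    have hE1 : ∀ p : S, FiniteDimensional ℚ_[(p : ℕ)] (E p) := fun p => (hE p).1
    have hE2 : ∀ p : S, Normal ℚ_[(p : ℕ)] (E p) := fun p => (hE p).2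
    let r : ℕ := ∑ p : S, Nat.card (E p ≃ₐ[ℚ_[(p : ℕ)]] E p)
    choose ψ hψ using fun p : S => V8H29.LC.exists_psi A (p : ℕ) (E p) r
      (Finset.single_le_sum (f := fun p : S => Nat.card (E p ≃ₐ[ℚ_[(p : ℕ)]] E p))
        (fun _ _ => Nat.zero_le _) (Finset.mem_univ p))
    refine ⟨r + n₀ + C * r, fun n hn d G hG => ?_⟩
    obtain ⟨-, h2⟩ := h r n (by omega) (by omega) S ψ (fun p => by
      rw [hψ p]
      exact (E p).fixingSubgroup_isOpen) d G hG
    refine h2 _ fun L hL => ⟨hL.1, fun p σ => ?_⟩
    rw [hL.2 p σ, hψ p, InfiniteGalois.fixedField_fixingSubgroup]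
  · intro A _ _
    obtain ⟨n₀, C, h⟩ := part2 A
    refine ⟨n₀, fun n hn S _ d G hG => ?_⟩
    obtain ⟨-, h2⟩ := h 0 n (Nat.zero_le _) (by omega) S (fun p => 1) (fun p => by
      rw [MonoidHom.ker_one]
      exact isOpen_univ) d G hG
    refine h2 _ fun L hL => ⟨hL.1, fun p σ => ?_⟩
    rw [hL.2 p σ, MonoidHom.ker_one]
    have h1 := InfiniteGalois.fixedField_fixingSubgroup (k := ℚ_[(p : ℕ)])
      (K := AlgebraicClosure ℚ_[(p : ℕ)]) ⊥
    rwa [IntermediateField.fixingSubgroup_bot] at h1

end Pool.Agent.Results.MP_a3214d_nt.LocalConditions
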