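import Mathlib
import Pool.Prelude.Def_F_b1b78ff3
import Pool.Agent.N600.ZQ.T6
import Pool.Agent.V8H29.MK1

/-!
# Malle's conjecture for `C₂ ≀ X`, `X` an extension of a solvable group by wreath products

`A i` are finitely many (at least one) ARBITRARY nontrivial finite groups with trivial centre,
`n i ≥ ((3 |A i| + 2)!) ^ 3`, and `X` is any finite group with a normal subgroup `N` isomorphic to the direct
product of the wreath products `A i ≀ S_(n i)`, with `|X / N| ≤ ∏ n i`. There is no condition on the extension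
`1 → N → X → X / N → 1`. The group `X` acts on itself by multiplication, and `G = C₂ ≀ X` acts on `X × {0, 1}`.

If all Sylow subgroups of `X / N` are cyclic (for example if `X / N` is cyclic or of squarefree order) then
Malle's conjecture holds for `G` over all number fields. If `X / N` is solvable then it holds for `G` over every
number field over which the finite solvable groups are Galois groups (which is the theorem of Shafarevich).
In general it holds over all number fields over which a certain Frattini cover of `X / N` is a Galois group.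
-/

set_option autoImplicit false

open Filter

namespace Pool.Agent.Results.MP_a3214d_nt.SolvableQuotients

open Nfff32c05 (IsRealizable)
open Pool.Agent.H391R2 (Wr)

/-- `G ≤ S_d` is, up to a bijection `f` of `{1, ..., d}` with `H × {0, 1}`, the wreath product
`C₂ ≀ H`: it consists of all permutations `π` for which there is `h ∈ H` such that `π` maps the block
`{x} × {0, 1}` to the block `{h x} × {0, 1}`, for all `x ∈ H`. -/
def IsC2Wreath (H : Type) [Group H] {d : ℕ} (G : Subgroup (Equiv.Perm (Fin d))) : Prop :=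
  ∃ f : Fin d ≃ H × Bool, ∀ π : Equiv.Perm (Fin d), π ∈ G ↔ ∃ h : H, ∀ i, (f (π i)).1 = h * (f i).1

/-- The fields `L` between `K` and its algebraic closure, of degree `d` over `K`, whose Galois group,
acting on the embeddings, is `G` (up to numbering), and whose relative discriminant has norm at most
`B` (that is, `|d_L| ≤ B |d_K| ^ d`). -/
def Ext (K : Type) [Field K] [NumberField K] (d : ℕ) (G : Subgroup (Equiv.Perm (Fin d)))
    (B : ℝ) : Set (IntermediateField K (AlgebraicClosure K)) :=
  {L | Module.finrank K L = d ∧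
    (∃ e : (L →ₐ[K] AlgebraicClosure K) ≃ Fin d, ∀ π : Equiv.Perm (Fin d),
      π ∈ G ↔ ∃ σ : AlgebraicClosure K ≃ₐ[K] AlgebraicClosure K,
        ∀ φ : L →ₐ[K] AlgebraicClosure K, e (σ.toAlgHom.comp φ) = π (e φ)) ∧
    ∃ h : NumberField L,
      ((|@NumberField.discr L _ h| : ℤ) : ℝ) ≤ B * ((|NumberField.discr K| : ℤ) : ℝ) ^ d}

/-- `N(K, G; B)`: the number of these fields up to `K`-isomorphism. -/
noncomputable def N (K : Type) [Field K] [NumberField K] (d : ℕ)
    (G : Subgroup (Equiv.Perm (Fin d))) (B : ℝ) : ℕ :=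
  Nat.card (Quot fun L L' : Ext K d G B => Nonempty (L.1 ≃ₐ[K] L'.1))

/-- The conclusion of Malle's conjecture for `G`, over all number fields: there is `a > 0` such that
for every number field `K` there are `c > 0` and `b ≥ 1` with
`N(K, G; B) ~ c B ^ a (log B) ^ (b - 1)`. -/
def Malle (d : ℕ) (G : Subgroup (Equiv.Perm (Fin d))) : Prop :=
  ∃ a : ℝ, 0 < a ∧ ∀ (K : Type) [Field K] [NumberField K], ∃ (c : ℝ) (b : ℕ), 0 < c ∧ 1 ≤ b ∧
    Tendsto (fun B : ℝ => (N K d G B : ℝ) / (B ^ a * Real.log B ^ (b - 1))) atTop (nhds c)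

/-- The group `C₂ ≀ H` exists, and is transitive. -/
theorem exists_group (H : Type) [Group H] [Finite H] : ∃ (d : ℕ)
    (G : Subgroup (Equiv.Perm (Fin d))), d = 2 * Nat.card H ∧ IsC2Wreath H G ∧
      ∀ i j : Fin d, ∃ g ∈ G, g i = j := by
  have hcard : Nat.card (H × Bool) = 2 * Nat.card H := by
    rw [Nat.card_prod, mul_comm]
    simp
  let f : Fin (2 * Nat.card H) ≃ H × Bool := (Finite.equivFinOfCardEq hcard).symm
  let G : Subgroup (Equiv.Perm (Fin (2 * Nat.card H))) :=
    { carrier := {π | ∃ h : H, ∀ i, (f (π i)).1 = h * (f i).1}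
      one_mem' := ⟨1, fun i => by simp⟩
      mul_mem' := by
        rintro π ρ ⟨h, hh⟩ ⟨h', hh'⟩
        refine ⟨h * h', fun i => ?_⟩
        rw [Equiv.Perm.mul_apply, hh, hh', mul_assoc]
      inv_mem' := by
        rintro π ⟨h, hh⟩
        refine ⟨h⁻¹, fun i => ?_⟩
        have h1 := hh (π⁻¹ i)
        rw [show π (π⁻¹ i) = i from π.apply_symm_apply i] at h1
        rw [h1, inv_mul_cancel_left] }
  refine ⟨2 * Nat.card H, G, rfl, ⟨f, fun π => Iff.rfl⟩, fun i j => ?_⟩
  let t : Equiv.Perm (H × Bool) :=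
    (Equiv.mulLeft ((f j).1 * (f i).1⁻¹)).prodCongr (Equiv.swap (f i).2 (f j).2)
  refine ⟨f.trans (t.trans f.symm), ⟨(f j).1 * (f i).1⁻¹, fun x => ?_⟩, ?_⟩
  · simp [t]
  · change f.symm (t (f i)) = j
    rw [Equiv.symm_apply_eq]
    exact Prod.ext (by simp [t]) (by simp [t])

theorem of_data (K : Type) [Field K] [NumberField K] (H : Type) [Group H] [Finite H]
    (h2 : 2 ≤ Nat.card H) (U : Subgroup H) (hU : U.normalCore = ⊥)
    (hc : 8 * U.index * (U.index + 1) ≤ Nat.card H)
    (hne : (Pool.Agent.TH444.ML.Gal K (AlgebraicClosure K) H).Nonempty) (d : ℕ)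
    (G : Subgroup (Equiv.Perm (Fin d))) (hG : IsC2Wreath H G) : ∃ c : ℝ, 0 < c ∧
      Tendsto (fun B : ℝ => (N K d G B : ℝ) / B) atTop (nhds c) :=
  Pool.Agent.TH444.ML.asymp_iso Pool.Agent.TH444.ML.rest K H h2 U hU hc hne G hG

/-- The group `C₂ ≀ H` exists, and is transitive. -/
def Exists (H : Type) [Group H] : Prop := ∃ (d : ℕ) (G : Subgroup (Equiv.Perm (Fin d))),
  d = 2 * Nat.card H ∧ IsC2Wreath H G ∧ ∀ i j : Fin d, ∃ g ∈ G, g i = j

/-- Over `K` the asymptotic formula `N(K, G; B) ~ c B` holds for all subgroups of symmetric groups of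
the form `G = C₂ ≀ H`, `H` in its regular action. -/
def MalleOrderTwo (K : Type) [Field K] [NumberField K] (H : Type) [Group H] : Prop :=
  ∀ (d : ℕ) (G : Subgroup (Equiv.Perm (Fin d))), IsC2Wreath H G → ∃ c : ℝ, 0 < c ∧
    Tendsto (fun B : ℝ => (N K d G B : ℝ) / B) atTop (nhds c)

/-- The conclusion of Malle's conjecture for all subgroups of symmetric groups of the form
`G = C₂ ≀ H`. -/
def MalleAll (H : Type) [Group H] : Prop :=
  ∀ (d : ℕ) (G : Subgroup (Equiv.Perm (Fin d))), IsC2Wreath H G → Malle d G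

theorem malle_of {H : Type} [Group H]
    (h : ∀ (K : Type) [Field K] [NumberField K], MalleOrderTwo K H) : MalleAll H := by
  intro d G hG
  refine ⟨1, one_pos, fun K _ _ => ?_⟩
  obtain ⟨c, hc0, hlim⟩ := h K d G hG
  refine ⟨c, 1, hc0, le_rfl, ?_⟩
  simpa using hlim

/-- `π` is a Frattini cover: it is surjective and its kernel is contained in the Frattini subgroup,
the intersection of the maximal subgroups. -/
def FrattiniCover {Q Y : Type} [Group Q] [Group Y] (π : Q →* Y) : Prop :=
  Function.Surjective π ∧ π.ker ≤ frattini Q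

/-- The reduction to a Frattini cover `Q` of `Y`. -/
def CoverTheorem (X Y : Type) [Group X] [Group Y] : Prop :=
  ∃ (Q : Type) (_ : Group Q) (_ : Finite Q) (π : Q →* Y), FrattiniCover π ∧
    (∀ (K : Type) [Field K] [NumberField K], IsRealizable K Q → MalleOrderTwo K X) ∧
    (Group.IsSolvable Y → Group.IsSolvable Q) ∧ (Group.IsNilpotent Y → Group.IsNilpotent Q) ∧
    (∀ p : ℕ, p.Prime → p ∣ Nat.card Q → p ∣ Nat.card Y)

/-- All finite solvable groups are Galois groups over `K`: this is the theorem of Shafarevich. -/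
def SolvableRealizable (K : Type) [Field K] : Prop :=
  ∀ (Q : Type) [Group Q] [Finite Q], Group.IsSolvable Q → IsRealizable K Q

theorem twelve_le {a n : ℕ} (ha : 1 ≤ a) (hn : ((3 * a + 2).factorial) ^ 3 ≤ n) : 12 ≤ n := by
  refine le_trans ?_ hn
  have h2 : (5 : ℕ).factorial ≤ (3 * a + 2).factorial := Nat.factorial_le (by omega)
  have h3 : (5 : ℕ).factorial = 120 := rfl
  calc 12 ≤ 120 ^ 1 := by norm_num
    _ ≤ 120 ^ 3 := Nat.pow_le_pow_right (by norm_num) (by norm_num)
    _ ≤ _ := Nat.pow_le_pow_left (by omega) 3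

/-- `A i` (`i ∈ I`, `I` finite and nonempty) are nontrivial finite groups with trivial centre,
`n i ≥ ((3 |A i| + 2)!) ^ 3`, and `X` is a group with a normal subgroup `N` of finite index isomorphic to the
direct product of the `A i ≀ S_(n i)`, with `|X / N| ≤ ∏ n i`. (0) The permutation group `C₂ ≀ X` exists, and is
transitive. (1) There is a Frattini cover `Q` of `X / N` such that over every number field `K` over which `Q` is
a Galois group the number of isomorphism classes of extensions with group `C₂ ≀ X` is asymptotic to `c B`; `Q`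
is solvable (nilpotent) if `X / N` is, and only primes dividing `|X / N|` divide `|Q|`. (2) If `X / N` is
solvable, this holds over all number fields `K` over which the finite solvable groups are Galois groups.
(3) If all Sylow subgroups of `X / N` are cyclic then Malle's conjecture holds for `C₂ ≀ X`, over all number
fields. -/
theorem result : ∀ (I : Type) [Fintype I] [Nonempty I] (A : I → Type) [∀ i, Group (A i)]
    [∀ i, Finite (A i)] [∀ i, Nontrivial (A i)] (n : I → ℕ), (∀ i, Subgroup.center (A i) = ⊥) →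
    (∀ i, ((3 * Nat.card (A i) + 2).factorial) ^ 3 ≤ n i) →
    ∀ (X : Type) [Group X] (N : Subgroup X) [N.Normal],
      Nonempty (N ≃* ∀ i, Wr (A i) (n i)) → Finite (X ⧸ N) → Nat.card (X ⧸ N) ≤ ∏ i, n i →
      Exists X ∧ CoverTheorem X (X ⧸ N) ∧
      (Group.IsSolvable (X ⧸ N) → ∀ (K : Type) [Field K] [NumberField K],
        SolvableRealizable K → MalleOrderTwo K X) ∧
      (IsZGroup (X ⧸ N) → MalleAll X) := by
  intro I _ _ A _ _ _ n hZ hn X _ N _ hN hfin hq
  have hfw : ∀ i, Finite (Wr (A i) (n i)) := fun i => H391R2.T4.finite_wr (A i) (n i)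
  have hr : V8H29.MK.Roomy (Nat.card (X ⧸ N)) (∀ i, Wr (A i) (n i)) :=
    (V8H29.MK.roomy_pi I (fun i => Wr (A i) (n i)) n fun i =>
      V8H29.MK.roomy_wr (A i) (n i) (n i) (twelve_le Nat.card_pos (hn i)) le_rfl).mono hq
  obtain ⟨e⟩ := hN
  have hfN : Finite N := Finite.of_equiv _ e.symm.toEquiv
  obtain ⟨hX, h2, U, hU, hc⟩ := V8H29.MK.data_of N hfN hfin (V8H29.MK.roomy_iso e.symm hr)
  have key : ∀ (K : Type) [Field K] [NumberField K], IsRealizable K X → MalleOrderTwo K X := by
    intro K _ _ hK d G hG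
    obtain ⟨⟨L, i1, i2, i3, γ⟩⟩ := hK.exists_realization
    exact of_data K X h2 U hU hc (V8H29.MK.gal_of_real K (AlgebraicClosure K) X
      ⟨L, i1, i2, i3, ⟨γ⟩⟩) d G hG
  obtain ⟨Q, i1, i2, π, hπ, hQ⟩ := Pool.Agent.N600.ZQ.frat_main hZ hn X N ⟨e⟩ hfin
  refine ⟨exists_group X, ⟨Q, i1, i2, π, hπ, fun K _ _ hK => key K (hQ.1 K hK), hπ.solvable,
    hπ.nilpotent, hπ.prime⟩, ?_, ?_⟩
  · intro hs K _ _ hK
    exact key K (hQ.1 K (hK Q (hπ.solvable hs)))
  · intro hz
    exact malle_of fun K _ _ => key K ((Pool.Agent.N600.ZQ.z_main hZ hn X N ⟨e⟩ hfin).1 K)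

end Pool.Agent.Results.MP_a3214d_nt.SolvableQuotients
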