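import Mathlib
import Pool.Prelude.Def_F_b1b78ff3
import Pool.Agent.N600.UK.Main
import Pool.Agent.V8H29.MK1

/-!
# Malle's conjecture for `C₂ ≀ X`, `X` any finite group with a large universal normal subgroup

`X` is a finite group acting on itself by multiplication, and `G = C₂ ≀ X` acts on `X × {0, 1}`. Let `N` be a
normal subgroup of `X` which belongs to the class `Univ` (file `Pool/Agent/N600/UK/Defs.lean`; it contains the
twofold wreath products `(A ≀ S_m) ≀ S_n` of EVERY nontrivial finite group `A` with trivial centre, with `|Out A|`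
dividing `m` and `m`, `n` large, the groups `A ≀ S_n` if moreover `Inn A` has a complement in `Aut A`, the
symmetric groups `S_n`, `n ≥ 3`, `n ≠ 6`, and is closed under direct products, direct factors,
characteristic extensions and under `T ↦ T ≀ S_n`, `n ≥ 2 (|T| + 2)`). There is no condition on the extension
`1 → N → X → X / N → 1`, which need not split. If `N` is large compared to `X / N` (`Roomy`), then over every
number field `K` over which `X / N` is a Galois group the number of isomorphism classes of `G`-extensions of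
`K` with discriminant of norm at most `B` is asymptotic to `c B`; if `X / N` is a Galois group over all number
fields (for example `X = N`), then Malle's conjecture holds for `G` over all number fields.
-/

set_option autoImplicit false

open Filter

namespace Pool.Agent.Results.MP_a3214d_nt.UniversalKernels

open Nfff32c05 (IsRealizable)
open Pool.Agent.N600.UK (Univ)
open Pool.Agent.H391R2 (Wr)

/-- `G ≤ S_d` is, up to a bijection `f` of `{1, ..., d}` with `H × {0, 1}`, the wreath product
`C₂ ≀ H`: it consists of all permutations `π` for which there is `h ∈ H` such that `π` maps the block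
`{x} × {0, 1}` to the block `{h x} × {0, 1}`, for all `x ∈ H`. -/
def IsC2Wreath (H : Type) [Group H] {d : ℕ} (G : Subgroup (Equiv.Perm (Fin d))) : Prop :=
  ∃ f : Fin d ≃ H × Bool, ∀ π : Equiv.Perm (Fin d), π ∈ G ↔ ∃ h : H, ∀ i, (f (π i)).1 = h * (f i).1

/-- The fields `L` between `K` and its algebraic closure, of degree `d` over `K`, whose Galois group,
acting on the embeddings, is `G` (up to numbering), and whose relative discriminant has norm at most
`B` (that is, `|d_L| ≤ B |d_K| ^ d`). -/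
def Ext (K : Type) [Field K] [NumberField K] (d : ℕ) (G : Subgroup (Equiv.Perm (Fin d)))
    (B : ℝ) : Set (IntermediateField K (AlgebraicClosure K)) :=
  {L | Module.finrank K L = d ∧
    (∃ e : (L →ₐ[K] AlgebraicClosure K) ≃ Fin d, ∀ π : Equiv.Perm (Fin d),
      π ∈ G ↔ ∃ σ : AlgebraicClosure K ≃ₐ[K] AlgebraicClosure K,
        ∀ φ : L →ₐ[K] AlgebraicClosure K, e (σ.toAlgHom.comp φ) = π (e φ)) ∧
    ∃ h : NumberField L,
      ((|@NumberField.discr L _ h| : ℤ) : ℝ) ≤ B * ((|NumberField.discr K| : ℤ) : ℝ) ^ d}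

/-- `N(K, G; B)`: the number of these fields up to `K`-isomorphism. -/
noncomputable def N (K : Type) [Field K] [NumberField K] (d : ℕ)
    (G : Subgroup (Equiv.Perm (Fin d))) (B : ℝ) : ℕ :=
  Nat.card (Quot fun L L' : Ext K d G B => Nonempty (L.1 ≃ₐ[K] L'.1))

/-- The conclusion of Malle's conjecture for `G`, over all number fields: there is `a > 0` such that
for every number field `K` there are `c > 0` and `b ≥ 1` with
`N(K, G; B) ~ c B ^ a (log B) ^ (b - 1)`. -/
def Malle (d : ℕ) (G : Subgroup (Equiv.Perm (Fin d))) : Prop :=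
  ∃ a : ℝ, 0 < a ∧ ∀ (K : Type) [Field K] [NumberField K], ∃ (c : ℝ) (b : ℕ), 0 < c ∧ 1 ≤ b ∧
    Tendsto (fun B : ℝ => (N K d G B : ℝ) / (B ^ a * Real.log B ^ (b - 1))) atTop (nhds c)

/-- The group `C₂ ≀ H` exists, and is transitive. -/
theorem exists_group (H : Type) [Group H] [Finite H] : ∃ (d : ℕ)
    (G : Subgroup (Equiv.Perm (Fin d))), d = 2 * Nat.card H ∧ IsC2Wreath H G ∧
      ∀ i j : Fin d, ∃ g ∈ G, g i = j := by
  have hcard : Nat.card (H × Bool) = 2 * Nat.card H := by
    rw [Nat.card_prod, mul_comm]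
    simp
  let f : Fin (2 * Nat.card H) ≃ H × Bool := (Finite.equivFinOfCardEq hcard).symm
  let G : Subgroup (Equiv.Perm (Fin (2 * Nat.card H))) :=
    { carrier := {π | ∃ h : H, ∀ i, (f (π i)).1 = h * (f i).1}
      one_mem' := ⟨1, fun i => by simp⟩
      mul_mem' := by
        rintro π ρ ⟨h, hh⟩ ⟨h', hh'⟩
        refine ⟨h * h', fun i => ?_⟩
        rw [Equiv.Perm.mul_apply, hh, hh', mul_assoc]
      inv_mem' := by
        rintro π ⟨h, hh⟩
        refine ⟨h⁻¹, fun i => ?_⟩
        have h1 := hh (π⁻¹ i)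
        rw [show π (π⁻¹ i) = i from π.apply_symm_apply i] at h1
        rw [h1, inv_mul_cancel_left] }
  refine ⟨2 * Nat.card H, G, rfl, ⟨f, fun π => Iff.rfl⟩, fun i j => ?_⟩
  let t : Equiv.Perm (H × Bool) :=
    (Equiv.mulLeft ((f j).1 * (f i).1⁻¹)).prodCongr (Equiv.swap (f i).2 (f j).2)
  refine ⟨f.trans (t.trans f.symm), ⟨(f j).1 * (f i).1⁻¹, fun x => ?_⟩, ?_⟩
  · simp [t]
  · change f.symm (t (f i)) = j
    rw [Equiv.symm_apply_eq]
    exact Prod.ext (by simp [t]) (by simp [t])

theorem of_data (K : Type) [Field K] [NumberField K] (H : Type) [Group H] [Finite H]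
    (h2 : 2 ≤ Nat.card H) (U : Subgroup H) (hU : U.normalCore = ⊥)
    (hc : 8 * U.index * (U.index + 1) ≤ Nat.card H)
    (hne : (Pool.Agent.TH444.ML.Gal K (AlgebraicClosure K) H).Nonempty) (d : ℕ)
    (G : Subgroup (Equiv.Perm (Fin d))) (hG : IsC2Wreath H G) : ∃ c : ℝ, 0 < c ∧
      Tendsto (fun B : ℝ => (N K d G B : ℝ) / B) atTop (nhds c) :=
  Pool.Agent.TH444.ML.asymp_iso Pool.Agent.TH444.ML.rest K H h2 U hU hc hne G hG

/-- The group `C₂ ≀ H` exists, and is transitive. -/
def Exists (H : Type) [Group H] : Prop := ∃ (d : ℕ) (G : Subgroup (Equiv.Perm (Fin d))),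
  d = 2 * Nat.card H ∧ IsC2Wreath H G ∧ ∀ i j : Fin d, ∃ g ∈ G, g i = j

/-- Over `K` the asymptotic formula `N(K, G; B) ~ c B` holds for all subgroups of symmetric groups of
the form `G = C₂ ≀ H`, `H` in its regular action. -/
def MalleOrderTwo (K : Type) [Field K] [NumberField K] (H : Type) [Group H] : Prop :=
  ∀ (d : ℕ) (G : Subgroup (Equiv.Perm (Fin d))), IsC2Wreath H G → ∃ c : ℝ, 0 < c ∧
    Tendsto (fun B : ℝ => (N K d G B : ℝ) / B) atTop (nhds c)

/-- The conclusion of Malle's conjecture for all subgroups of symmetric groups of the form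
`G = C₂ ≀ H`. -/
def MalleAll (H : Type) [Group H] : Prop :=
  ∀ (d : ℕ) (G : Subgroup (Equiv.Perm (Fin d))), IsC2Wreath H G → Malle d G

theorem malle_of {H : Type} [Group H]
    (h : ∀ (K : Type) [Field K] [NumberField K], MalleOrderTwo K H) : MalleAll H := by
  intro d G hG
  refine ⟨1, one_pos, fun K _ _ => ?_⟩
  obtain ⟨c, hc0, hlim⟩ := h K d G hG
  refine ⟨c, 1, hc0, le_rfl, ?_⟩
  simpa using hlim

/-- The theorem for the group `X` and a quotient `Y` of `X`. `IsRealizable K Y`: `Y` is a Galois group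
over `K`. -/
def Conclusion (X Y : Type) [Group X] [Group Y] : Prop :=
  Exists X ∧
  (∀ (K : Type) [Field K] [NumberField K], IsRealizable K Y → MalleOrderTwo K X) ∧
  ((∀ (K : Type) [Field K] [NumberField K], IsRealizable K Y) → MalleAll X)

/-- `T` has a subgroup `V` with trivial core and `16 q [T : V] ^ 2 ≤ |T|`. -/
def Roomy (q : ℕ) (T : Type) [Group T] : Prop :=
  ∃ V : Subgroup T, V.normalCore = ⊥ ∧ 16 * q * V.index ^ 2 ≤ Nat.card T

theorem conclusion_of {T : Type} [Group T] (hT : Univ T) (X : Type) [Group X] (N : Subgroup X)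
    [N.Normal] (hN : Nonempty (N ≃* T)) (hfin : Finite (X ⧸ N)) (hr : Roomy (Nat.card (X ⧸ N)) T) :
    Conclusion X (X ⧸ N) := by
  obtain ⟨e⟩ := hN
  have hfT : Finite T := hT.main.1
  have hfN : Finite N := Finite.of_equiv T e.symm.toEquiv
  obtain ⟨hX, h2, U, hU, hc⟩ := V8H29.MK.data_of N hfN hfin (V8H29.MK.roomy_iso e.symm hr)
  have key : ∀ (K : Type) [Field K] [NumberField K], IsRealizable K (X ⧸ N) → MalleOrderTwo K X := by
    intro K _ _ hK d G hG
    have h3 : IsRealizable K X :=
      (hT.real_hilb K (H391R2.T4.hilb_numberField K) X N ⟨e⟩ hfin).2 hK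
    obtain ⟨⟨L, i1, i2, i3, γ⟩⟩ := h3.exists_realization
    exact of_data K X h2 U hU hc (V8H29.MK.gal_of_real K (AlgebraicClosure K) X
      ⟨L, i1, i2, i3, ⟨γ⟩⟩) d G hG
  exact ⟨exists_group X, key, fun hD => malle_of fun K _ _ => key K (hD K)⟩

/-- (1) The theorem for all groups `T` in the class `Univ` and all groups `X` with a normal subgroup `N`
isomorphic to `T` such that `T` has a subgroup `V` with trivial core and `16 |X / N| [T : V] ^ 2 ≤ |T|`.
(2) The last condition holds for every direct product of finitely many (at least one) wreath products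
`A i ≀ S_(n i)` of finite groups with `12 ≤ n i` and `|X / N| ≤ ∏ n i`. So the theorem holds, for
instance, for all `X` with a normal subgroup `N ≅ (A ≀ S_m) ≀ S_n`, where `A` is any nontrivial finite group
with trivial centre, `|Out A|` divides `m ≥ 2 (|A| + 2)`, `n ≥ ((3 |A ≀ S_m| + 2)!) ^ 3` and
`n ≥ |X / N|`. -/
theorem result :
    (∀ (T : Type) [Group T], Univ T → ∀ (X : Type) [Group X] (N : Subgroup X) [N.Normal],
      Nonempty (N ≃* T) → Finite (X ⧸ N) → Roomy (Nat.card (X ⧸ N)) T → Conclusion X (X ⧸ N)) ∧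
    (∀ (I : Type) [Fintype I] [Nonempty I] (A : I → Type) [∀ i, Group (A i)] [∀ i, Finite (A i)]
      (n : I → ℕ) (q : ℕ), (∀ i, 12 ≤ n i) → q ≤ ∏ i, n i → Roomy q (∀ i, Wr (A i) (n i))) ∧
    (∀ (A : Type) [Group A] [Finite A] [Nontrivial A], Subgroup.center A = ⊥ → ∀ m n : ℕ,
      (MulAut.conj : A →* MulAut A).range.index ∣ m → 2 * (Nat.card A + 2) ≤ m →
      ((3 * Nat.card (Wr A m) + 2).factorial) ^ 3 ≤ n → ∀ (X : Type) [Group X] (N : Subgroup X)
      [N.Normal], Nonempty (N ≃* Wr (Wr A m) n) → Finite (X ⧸ N) → Nat.card (X ⧸ N) ≤ n →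
      Conclusion X (X ⧸ N)) := by
  refine ⟨fun T _ hT X _ N _ hN hfin hr => conclusion_of hT X N hN hfin hr, ?_, ?_⟩
  · intro I _ _ A _ _ n q hn hq
    have hfw : ∀ i, Finite (Wr (A i) (n i)) := fun i => H391R2.T4.finite_wr (A i) (n i)
    exact (V8H29.MK.roomy_pi I (fun i => Wr (A i) (n i)) n
      fun i => V8H29.MK.roomy_wr (A i) (n i) (n i) (hn i) le_rfl).mono hq
  · intro A _ _ _ hZ m n hd hm hn X _ N _ hN hfin hq
    have hfw : Finite (Wr A m) := H391R2.T4.finite_wr A m
    have hn12 : 12 ≤ n := by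
      refine le_trans ?_ hn
      have h1 : 1 ≤ Nat.card (Wr A m) := Nat.card_pos
      have h2 : (5 : ℕ).factorial ≤ (3 * Nat.card (Wr A m) + 2).factorial :=
        Nat.factorial_le (by omega)
      have h3 : (5 : ℕ).factorial = 120 := rfl
      calc 12 ≤ 120 ^ 1 := by norm_num
        _ ≤ 120 ^ 3 := Nat.pow_le_pow_right (by norm_num) (by norm_num)
        _ ≤ _ := Nat.pow_le_pow_left (by omega) 3
    exact conclusion_of (Univ.double A hZ m hm hd n hn) X N hN hfin
      (V8H29.MK.roomy_wr (Wr A m) n _ hn12 hq)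

end Pool.Agent.Results.MP_a3214d_nt.UniversalKernels
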